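import Pool.Agent.Lib.H18V.V0

open Finset

namespace Pool.Agent.Lib.H18V

open Pool.Agent.H44W (ee TF cut)

/-- **Cauchy-Schwarz for many correlations.**

Proof: for `x = (k, Y) ∈ V` choose `c_x`, `‖c_x‖ = 1`, with `c_x * Cr g ψ L k Y Θ_x = ‖Cr ..‖` (if
`Cr = 0` take `c_x = 1`), and put `F_x(z) = ∑_{i ∈ Ico 0 L, Y + k i = z} c_x ψ^-(i) ee(i Θ_x)`
(`ψ^-` = conjugate). Then `‖Cr ..‖ = ∑_{z ∈ Z} g(z) F_x(z)`. Cauchy-Schwarz: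
`(∑_x ‖Cr‖)^2 = ‖∑_z g(z) ∑_x F_x(z)‖^2 ≤ Z.card * ∑_z ‖∑_x F_x(z)‖^2`, and
`∑_z ‖∑_x F_x(z)‖^2 = ∑_{x,y} ∑_z conj(F_x(z)) F_y(z)`. For fixed `x, y` the inner sum (extend it from `Z`
to all `z`: the support is in `Z`) is `conj c_x c_y * ∑_{(i,i') : Y + k i = Y' + k' i'}
ψ(i) ψ^-(i') ee(-i Θ_x + i' Θ_y)` = unimodular times `JS ψ L k k' (Y' - Y) Θ_x Θ_y`
(`Y + k i = Y' + k' i'` iff `k i - k' i' = Y' - Y`). -/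
theorem CSV (g ψ : ℤ → ℂ) (hg : ∀ z, ‖g z‖ ≤ 1) (L : ℕ) (V : Finset (ℕ × ℤ)) (Th : ℕ × ℤ → ℝ)
    (Z : Finset ℤ) (hZ : ∀ x ∈ V, ∀ i ∈ Ico (0 : ℤ) L, x.2 + x.1 * i ∈ Z) :
    (∑ x ∈ V, ‖Cr g ψ L x.1 x.2 (Th x)‖) ^ 2 ≤
      Z.card * ∑ x ∈ V, ∑ y ∈ V, ‖JS ψ L x.1 y.1 (y.2 - x.2) (Th x) (Th y)‖ := by
  sorry

end Pool.Agent.Lib.H18V
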