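import Pool.Agent.Lib.H18V.V0

open Finset

namespace Pool.Agent.Lib.H18V

open Pool.Agent.H44W (ee TF cut)

/-- The number of solutions of `k i - k' i' = δ`, `0 ≤ i, i' < L`. -/
noncomputable def NS (L k k' : ℕ) (δ : ℤ) : ℕ :=
  ((Ico (0 : ℤ) L ×ˢ Ico (0 : ℤ) L).filter (fun p => (k : ℤ) * p.1 - k' * p.2 = δ)).card

theorem JS_le (ψ : ℤ → ℂ) (hψ : ∀ i, ‖ψ i‖ ≤ 1) (L k k' : ℕ) (δ : ℤ) (θ θ' : ℝ) :
    ‖JS ψ L k k' δ θ θ'‖ ≤ NS L k k' δ := by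
  sorry

/-- Proof: the first coordinates of two solutions are congruent modulo `k'/gcd(k,k')`, and the first
coordinate determines the second (`k' ≥ 1`). The number of integers of one residue class modulo `m`
(`m = k'/gcd`) in `Ico 0 L` is at most `L/m + 1`, and `L/m = L gcd/k'`. -/
theorem NS_le (L k k' : ℕ) (hk : 1 ≤ k) (hk' : 1 ≤ k') (δ : ℤ) :
    (NS L k k' δ : ℝ) ≤ (L : ℝ) * Nat.gcd k k' / k' + 1 := by
  sorry

/-- Proof: exchange the sums: for `(i, i')` fixed and `Y` fixed there is at most one `Y'` with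
`Y' - Y = k i - k' i'`. -/
theorem NS_sum (L k k' N : ℕ) :
    ∑ Y ∈ Ico (-(N : ℤ)) N, ∑ Y' ∈ Ico (-(N : ℤ)) N, NS L k k' (Y' - Y) ≤ 2 * N * L ^ 2 := by
  sorry

end Pool.Agent.Lib.H18V
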