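import Pool.Agent.Lib.H18V.V0

open Finset

namespace Pool.Agent.Lib.H18V

open Pool.Agent.H44W (ee TF cut)

/-- Few pairs have a large common divisor.

Proof: if `gcd(k,k') = d` then `d ≤ 2K` and `d` divides both; the number of multiples of `d` in
`Ico K (2K)` is at most `K/d + 1 ≤ 3K/d`. So the count is at most
`∑_{G < d ≤ 2K} (3K/d)^2 ≤ 9 K^2 ∑_{d > G} 1/d^2 ≤ 9 K^2/G` (telescoping `1/d^2 ≤ 1/(d-1) - 1/d`). -/
theorem gcd_count (K G : ℕ) (hG : 1 ≤ G) :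
    ((((Ico K (2 * K) ×ˢ Ico K (2 * K)).filter (fun p => G < Nat.gcd p.1 p.2)).card : ℝ)) ≤
      9 * K ^ 2 / G := by
  sorry

end Pool.Agent.Lib.H18V
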