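import Pool.Agent.Lib.H18V.V0
import Pool.Agent.Lib.H18V.I0
import Pool.Agent.Lib.H18V.I1
import Pool.Agent.Lib.H18V.I3

open Finset

namespace Pool.Agent.Lib.H18V

open Pool.Agent.H44W (ee TF cut)

/-- **Intersection lemma.**

Proof. `K, L, N ≥ 1`. By `CSV` with `Z = Ico (-N) (3N)` (`Y + k i < N + 2K L ≤ 3N`), `Z.card = 4N`, and
`V.card ≥ KN/D`, `‖Cr‖ ≥ L/D`: `S := ∑_{x,y ∈ V} ‖JS‖ ≥ (KN L/D^2)^2/(4N) = K^2 N L^2/(4 D^4)`.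
(1) The pairs with `gcd > G`, `G = ⌈300 D^4⌉₊`: `‖JS‖ ≤ NS` (`JS_le`), `NS_sum` for each `(k,k')` and
`gcd_count`: at most `9K^2/G * 2N L^2 ≤ K^2 N L^2/(16 D^4)`. (2) The pairs with `‖JS‖ < L/(K G')`,
`G' = 64 D^5`: at most `(2KN)^2 L/(K G') = 4 K N^2 L/G' ≤ 4 D K^2 N L^2/G' = K^2 N L^2/(16 D^4)`
(`N ≤ D K L`). So the remaining pairs `E` have `∑ ‖JS‖ ≥ K^2 N L^2/(8 D^4)`, and for each of them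
`‖JS‖ ≤ NS ≤ L gcd/k' + 1 ≤ 2 G L/K` (`NS_le`, `k' ≥ K`, `K ≤ L`). Hence `E.card ≥ K^3 N L/(16 G D^4) ≥
K^2 N^2/(16 G D^5)`. Everything is a power of `D` (`2 ≤ D`); choose `C` large. -/
theorem IL : ∃ C : ℕ, ∀ D : ℝ, ∀ N K L : ℕ, ∀ g ψ : ℤ → ℂ, ∀ V : Finset (ℕ × ℤ),
    ∀ Th : ℕ × ℤ → ℝ, Dense D N K L g ψ V Th →
    ∃ E : Finset ((ℕ × ℤ) × (ℕ × ℤ)), E ⊆ V ×ˢ V ∧ (K : ℝ) ^ 2 * (N : ℝ) ^ 2 / D ^ C ≤ E.card ∧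
      ∀ p ∈ E, (Nat.gcd p.1.1 p.2.1 : ℝ) ≤ D ^ C ∧
        (L : ℝ) / (K * D ^ C) ≤ ‖JS ψ L p.1.1 p.2.1 (p.2.2 - p.1.2) (Th p.1) (Th p.2)‖ := by
  sorry

end Pool.Agent.Lib.H18V
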