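import Pool.Agent.Lib.H18V.V0

open Finset

namespace Pool.Agent.Lib.H18V

open Pool.Agent.H44W (ee TF cut)

/-- The solutions of `k i - k' i' = δ` in a box form an arithmetic progression.

Proof: `d = gcd(k,k')`, `m = k'/d`, `m' = k/d` are coprime. If there is no solution take `T = 0`.
Otherwise let `(i0, i0')` be the solution with the smallest `i0` and `(i1, i1')` the one with the largest
`i1`. Two solutions differ by `(m t, m' t)`, `t ∈ ℤ` (`k (i - j) = k' (i' - j')`, divide by `d`, coprimality). So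
all solutions are `(i0 + m t, i0' + m' t)` with `0 ≤ t ≤ t1`, `i1 = i0 + m t1`, and all these are
solutions in the box (both coordinates are monotone in `t`, between two solutions). `T = t1 + 1`;
`m t1 = i1 - i0 < L` gives `T ≤ L/m + 1 = L d/k' + 1`. -/
theorem sol_struct (L k k' : ℕ) (hk : 1 ≤ k) (hk' : 1 ≤ k') (δ : ℤ) :
    ∃ (T : ℕ) (i0 j0 : ℤ), (T : ℝ) ≤ (L : ℝ) * Nat.gcd k k' / k' + 1 ∧
      (Ico (0 : ℤ) L ×ˢ Ico (0 : ℤ) L).filter (fun p => (k : ℤ) * p.1 - k' * p.2 = δ) =
        (Ico (0 : ℤ) T).image (fun t => (i0 + ((k' / Nat.gcd k k' : ℕ) : ℤ) * t,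
          j0 + ((k / Nat.gcd k k' : ℕ) : ℤ) * t)) := by
  sorry

end Pool.Agent.Lib.H18V
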