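import Pool.Agent.Lib.H18V.V0
import Pool.Agent.Lib.H18V.J1

open Finset

namespace Pool.Agent.Lib.H18V

open Pool.Agent.H44W (ee TF cut)

/-- `JS` is, up to a unimodular factor, a Fourier coefficient of a function which only depends on
`(k, k', δ)`, at the frequency `-((k'/d) θ - (k/d) θ')`.

Proof: `sol_struct`; the map is injective (`k'/d ≥ 1`), `Ψ t = ψ(i0 + m t) conj ψ(j0 + m' t)`,
`-(i θ) + i' θ' = (-i0 θ + j0 θ') - t (m θ - m' θ')`. -/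
theorem JS_coef (ψ : ℤ → ℂ) (hψ : ∀ i, ‖ψ i‖ ≤ 1) (L k k' : ℕ) (hk : 1 ≤ k) (hk' : 1 ≤ k') (δ : ℤ) :
    ∃ (T : ℕ) (Ps : ℤ → ℂ), (∀ t, ‖Ps t‖ ≤ 1) ∧ (T : ℝ) ≤ (L : ℝ) * Nat.gcd k k' / k' + 1 ∧
      ∀ θ θ' : ℝ, ‖JS ψ L k k' δ θ θ'‖ = ‖∑ t ∈ Ico (0 : ℤ) T, Ps t *
        ee (t * (-(((k' / Nat.gcd k k' : ℕ) : ℝ) * θ - ((k / Nat.gcd k k' : ℕ) : ℝ) * θ')))‖ := by
  sorry

/-- The case `ψ = 1`: geometric sum.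

Proof: `sol_struct`, and `geom_ee` (with `Ico (0:ℤ) T` as image of `range T`) and `nn_neg`. -/
theorem JS_one (L k k' : ℕ) (hk : 1 ≤ k) (hk' : 1 ≤ k') (δ : ℤ) (θ θ' : ℝ) :
    ‖JS (fun _ => 1) L k k' δ θ θ'‖ * (2 * nn (((k' / Nat.gcd k k' : ℕ) : ℝ) * θ -
      ((k / Nat.gcd k k' : ℕ) : ℝ) * θ')) ≤ 1 := by
  sorry

end Pool.Agent.Lib.H18V
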