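import Pool.Agent.Lib.H18V.V0

open Finset

namespace Pool.Agent.Lib.H18V

open Pool.Agent.H44W (ee TF cut)

/-- Orthogonality of the characters modulo `P`.

Proof: if `P ∣ m` all terms are `1` (`ee_int`). Otherwise geometric sum: `ee(m/P) ≠ 1` and
`ee(P * (m/P)) = 1`. (`ee(x) = 1` iff `x` is an integer: `Complex.exp_eq_one_iff`.) -/
theorem orth (P : ℕ) (hP : 1 ≤ P) (m : ℤ) :
    ∑ u ∈ range P, ee (m * (u / P)) = if (P : ℤ) ∣ m then (P : ℂ) else 0 := by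
  sorry

/-- **Parseval modulo `P`** for a function on an interval of length `≤ P`.

Proof: expand `‖z‖^2 = z * conj z` (`Complex.mul_conj`, `Complex.normSq_eq_norm_sq`), exchange the sums,
`orth` with `m = t - t'`; for `t, t' ∈ Ico a (a+T)`, `T ≤ P`, `P ∣ t - t'` iff `t = t'`. -/
theorem pars (P : ℕ) (hP : 1 ≤ P) (a : ℤ) (T : ℕ) (hT : T ≤ P) (A : ℤ → ℂ) :
    ∑ u ∈ range P, ‖∑ t ∈ Ico a (a + T), A t * ee (t * (u / P))‖ ^ 2 =
      P * ∑ t ∈ Ico a (a + T), ‖A t‖ ^ 2 := by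
  sorry

end Pool.Agent.Lib.H18V
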