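import Pool.Agent.Lib.H18V.V0

open Finset

namespace Pool.Agent.Lib.H18V

open Pool.Agent.H44W (ee TF cut)

/-- Continuity in the frequency.

Proof: `‖ee(tλ) - ee(tτ)‖ ≤ 2π nn(t(λ-τ)) ≤ 2π t nn(λ-τ)` (`norm_ee_sub_nn`, `nn_mul_le`), and
`∑_{0 ≤ t < T} t ≤ T^2/2`. -/
theorem lip (T : ℕ) (ψ : ℤ → ℂ) (hψ : ∀ t, ‖ψ t‖ ≤ 1) (lam tau : ℝ) :
    ‖∑ t ∈ Ico (0 : ℤ) T, ψ t * ee (t * lam) - ∑ t ∈ Ico (0 : ℤ) T, ψ t * ee (t * tau)‖ ≤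
      Real.pi * T ^ 2 * nn (lam - tau) := by
  sorry

end Pool.Agent.Lib.H18V
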