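import Pool.Agent.Lib.H18V.V0
import Pool.Agent.Lib.H18V.V2A
import Pool.Agent.Lib.H18V.V2B

open Finset

namespace Pool.Agent.Lib.H18V

open Pool.Agent.H44W (ee TF cut)

/-- **Cell lemma.** Among frequencies of large coefficients of one function a positive proportion lies
in one short arc.

Proof: if `s = ∅` take `s' = ∅`, `τ = 0`. Put `P = ⌈7 T D⌉₊` (so `7TD ≤ P ≤ 8TD`). For `j ∈ s` let
`u_j ∈ range P` be `round (P λ_j)` modulo `P` (`Int.emod`): `nn(λ_j - u_j/P) ≤ 1/(2P) ≤ 1/(14 T D)`.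
By `lip`: `‖ψ^(u_j/P)‖ ≥ T/D - π T^2/(14 T D) ≥ T/(2D)`. By `pars` (`a = 0`) at most
`P T/(T/(2D))^2 = 4 D^2 P/T ≤ 32 D^3` values `u ∈ range P` satisfy `‖ψ^(u/P)‖ ≥ T/(2D)`. So some `u`
is `u_j` for at least `s.card/(100 D^3)` of the `j` (`exists_le_card_fiber_of_mul_le_card_of_maps_to`
or `exists_card_fiber_le..` in real form); `τ = u/P`, `s'` the fibre. -/
theorem cell (D : ℝ) (hD : 1 ≤ D) (T : ℕ) (hT : 1 ≤ T) (ψ : ℤ → ℂ) (hψ : ∀ t, ‖ψ t‖ ≤ 1)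
    {J : Type} (s : Finset J) (lam : J → ℝ)
    (h : ∀ j ∈ s, (T : ℝ) / D ≤ ‖∑ t ∈ Ico (0 : ℤ) T, ψ t * ee (t * lam j)‖) :
    ∃ τ : ℝ, ∃ s' ⊆ s, (s.card : ℝ) / (100 * D ^ 3) ≤ s'.card ∧
      (∀ j ∈ s', nn (lam j - τ) ≤ 1 / (14 * T * D)) ∧
      (s.Nonempty → (T : ℝ) / (2 * D) ≤ ‖∑ t ∈ Ico (0 : ℤ) T, ψ t * ee (t * τ)‖) := by
  have hDp : (0 : ℝ) < D := by linarith
  have hTR : (1 : ℝ) ≤ (T : ℝ) := by exact_mod_cast hT
  have hTp : (0 : ℝ) < (T : ℝ) := by linarith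
  rcases s.eq_empty_or_nonempty with hs0 | hs0
  · subst hs0
    refine ⟨0, ∅, Finset.Subset.refl _, ?_, ?_, ?_⟩
    · simp
    · intro j hj
      exact absurd hj (Finset.notMem_empty j)
    · intro hne
      exact absurd hne (by simp)
  obtain ⟨P, hPdef⟩ : ∃ P : ℕ, P = ⌈7 * (T : ℝ) * D⌉₊ := ⟨_, rfl⟩
  have hTD : (1 : ℝ) ≤ (T : ℝ) * D := by nlinarith
  have hP1 : 7 * (T : ℝ) * D ≤ (P : ℝ) := by
    rw [hPdef]; exact Nat.le_ceil _
  have hP2 : (P : ℝ) ≤ 8 * ((T : ℝ) * D) := by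
    have := Nat.ceil_lt_add_one (show (0 : ℝ) ≤ 7 * (T : ℝ) * D by positivity)
    rw [← hPdef] at this
    nlinarith
  have hPR : (0 : ℝ) < (P : ℝ) := by nlinarith
  have hPn : 1 ≤ P := by
    have : 0 < P := by exact_mod_cast hPR
    omega
  have hTP : T ≤ P := by
    have : (T : ℝ) ≤ (P : ℝ) := by nlinarith
    exact_mod_cast this
  have hPZ : (0 : ℤ) < (P : ℤ) := by exact_mod_cast hPn
  -- the nearest fraction
  obtain ⟨f, hf⟩ : ∃ f : J → ℕ, ∀ j, f j = (round ((P : ℝ) * lam j) % (P : ℤ)).toNat := ⟨_, fun _ => rfl⟩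
  have hfZ : ∀ j, ((f j : ℕ) : ℤ) = round ((P : ℝ) * lam j) % (P : ℤ) := by
    intro j
    rw [hf]
    exact Int.toNat_of_nonneg (Int.emod_nonneg _ (ne_of_gt hPZ))
  have hfP : ∀ j, f j < P := by
    intro j
    have h1 : ((f j : ℕ) : ℤ) < (P : ℤ) := by
      rw [hfZ]
      exact Int.emod_lt_of_pos _ hPZ
    exact_mod_cast h1
  have hclose : ∀ j, nn (lam j - (f j : ℝ) / P) ≤ 1 / (14 * T * D) := by
    intro j
    have h1 : ((f j : ℕ) : ℤ) = round ((P : ℝ) * lam j) - (P : ℤ) * (round ((P : ℝ) * lam j) / (P : ℤ)) := by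
      rw [hfZ]
      exact Int.emod_def _ _
    have h2 : (f j : ℝ) = (round ((P : ℝ) * lam j) : ℝ) - (P : ℝ) * ((round ((P : ℝ) * lam j) / (P : ℤ) : ℤ) : ℝ) := by
      have : (((f j : ℕ) : ℤ) : ℝ) = ((round ((P : ℝ) * lam j) - (P : ℤ) * (round ((P : ℝ) * lam j) / (P : ℤ)) : ℤ) : ℝ) := by
        rw [h1]
      push_cast at this
      exact this
    have h3 : lam j - (f j : ℝ) / P =
        ((P : ℝ) * lam j - round ((P : ℝ) * lam j)) / P + ((round ((P : ℝ) * lam j) / (P : ℤ) : ℤ) : ℝ) := by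
      rw [h2]
      field_simp
      ring
    rw [h3, nn_add_int]
    refine (nn_le_abs _).trans ?_
    rw [abs_div, abs_of_pos hPR, div_le_iff₀ hPR]
    refine (abs_sub_round _).trans ?_
    have h4 : (0 : ℝ) < 14 * T * D := by positivity
    rw [one_div_mul_eq_div, le_div_iff₀ h4]
    nlinarith
  have hbig : ∀ j ∈ s, (T : ℝ) / (2 * D) ≤ ‖∑ t ∈ Ico (0 : ℤ) T, ψ t * ee (t * ((f j : ℝ) / P))‖ := by
    intro j hj
    have h1 := h j hj
    have h2 := lip T ψ hψ (lam j) ((f j : ℝ) / P)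
    have h3 := hclose j
    have h4 : Real.pi * (T : ℝ) ^ 2 * nn (lam j - (f j : ℝ) / P) ≤ (T : ℝ) / (2 * D) := by
      have h5 : Real.pi * (T : ℝ) ^ 2 * nn (lam j - (f j : ℝ) / P) ≤
          Real.pi * (T : ℝ) ^ 2 * (1 / (14 * T * D)) := by
        have : 0 ≤ Real.pi * (T : ℝ) ^ 2 := by positivity
        exact mul_le_mul_of_nonneg_left h3 this
      have h6 : Real.pi * (T : ℝ) ^ 2 * (1 / (14 * T * D)) = (Real.pi / 7) * ((T : ℝ) / (2 * D)) := by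
        field_simp
        ring
      have h7 : Real.pi / 7 ≤ 1 := by
        have := Real.pi_le_four
        linarith
      have h8 : (0 : ℝ) ≤ (T : ℝ) / (2 * D) := by positivity
      rw [h6] at h5
      nlinarith
    have h9 := norm_sub_norm_le (∑ t ∈ Ico (0 : ℤ) T, ψ t * ee (t * lam j))
      (∑ t ∈ Ico (0 : ℤ) T, ψ t * ee (t * ((f j : ℝ) / P)))
    have h10 : (T : ℝ) / D = (T : ℝ) / (2 * D) + (T : ℝ) / (2 * D) := by
      field_simp
      ring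
    linarith
  obtain ⟨U, hU⟩ : ∃ U : Finset ℕ, U = (range P).filter
      (fun u : ℕ => (T : ℝ) / (2 * D) ≤ ‖∑ t ∈ Ico (0 : ℤ) T, ψ t * ee (t * ((u : ℝ) / P))‖) := ⟨_, rfl⟩
  have hfU : ∀ j ∈ s, f j ∈ U := by
    intro j hj
    rw [hU, Finset.mem_filter, Finset.mem_range]
    exact ⟨hfP j, hbig j hj⟩
  have hUcard : (U.card : ℝ) ≤ 32 * D ^ 3 := by
    have h1 := pars P hPn 0 T hTP ψ
    rw [zero_add] at h1
    have h2 : (U.card : ℝ) * ((T : ℝ) / (2 * D)) ^ 2 ≤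
        ∑ u ∈ range P, ‖∑ t ∈ Ico (0 : ℤ) T, ψ t * ee (t * ((u : ℝ) / P))‖ ^ 2 := by
      have h3 : ∑ _u ∈ U, ((T : ℝ) / (2 * D)) ^ 2 ≤
          ∑ u ∈ U, ‖∑ t ∈ Ico (0 : ℤ) T, ψ t * ee (t * ((u : ℝ) / P))‖ ^ 2 := by
        refine Finset.sum_le_sum ?_
        intro u hu
        rw [hU, Finset.mem_filter] at hu
        exact pow_le_pow_left₀ (by positivity) hu.2 2
      rw [Finset.sum_const, nsmul_eq_mul] at h3
      refine h3.trans ?_
      refine Finset.sum_le_sum_of_subset_of_nonneg ?_ ?_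
      · rw [hU]; exact Finset.filter_subset _ _
      · intro u _ _
        positivity
    have h4 : (P : ℝ) * ∑ t ∈ Ico (0 : ℤ) T, ‖ψ t‖ ^ 2 ≤ P * T := by
      have h5 : ∑ t ∈ Ico (0 : ℤ) T, ‖ψ t‖ ^ 2 ≤ ∑ _t ∈ Ico (0 : ℤ) T, (1 : ℝ) := by
        refine Finset.sum_le_sum ?_
        intro t _
        have := hψ t
        have h0 := norm_nonneg (ψ t)
        nlinarith
      rw [Finset.sum_const, nsmul_eq_mul, mul_one, Int.card_Ico] at h5
      have h6 : (((T : ℤ) - 0).toNat : ℝ) = (T : ℝ) := by simp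
      rw [h6] at h5
      exact mul_le_mul_of_nonneg_left h5 hPR.le
    have h7 : (U.card : ℝ) * ((T : ℝ) / (2 * D)) ^ 2 ≤ P * T := by
      refine h2.trans ?_
      rw [h1]
      exact h4
    have h8 : (U.card : ℝ) * ((T : ℝ) / (2 * D)) ^ 2 ≤ (32 * D ^ 3) * ((T : ℝ) / (2 * D)) ^ 2 := by
      have h9 : (32 * D ^ 3) * ((T : ℝ) / (2 * D)) ^ 2 = 8 * ((T : ℝ) * D) * T := by
        field_simp
        ring
      rw [h9]
      refine h7.trans ?_
      exact mul_le_mul_of_nonneg_right hP2 hTp.le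
    have h10 : (0 : ℝ) < ((T : ℝ) / (2 * D)) ^ 2 := by positivity
    exact le_of_mul_le_mul_right h8 h10
  have hUne : U.Nonempty := by
    obtain ⟨j, hj⟩ := hs0
    exact ⟨f j, hfU j hj⟩
  have hpig : U.card • ((s.card : ℝ) / (100 * D ^ 3)) ≤ s.card := by
    rw [nsmul_eq_mul]
    have h1 : (0 : ℝ) < 100 * D ^ 3 := by positivity
    rw [mul_div_assoc', div_le_iff₀ h1]
    have h2 : (0 : ℝ) ≤ s.card := Nat.cast_nonneg _
    have h3 : (0 : ℝ) ≤ D ^ 3 := by positivity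
    have h4 : (U.card : ℝ) ≤ 100 * D ^ 3 := by linarith
    calc (U.card : ℝ) * s.card ≤ (100 * D ^ 3) * s.card := mul_le_mul_of_nonneg_right h4 h2
      _ = s.card * (100 * D ^ 3) := by ring
  obtain ⟨u, huU, hu⟩ := Finset.exists_le_card_fiber_of_nsmul_le_card_of_maps_to hfU hUne hpig
  refine ⟨(u : ℝ) / P, s.filter (fun j => f j = u), Finset.filter_subset _ _, hu, ?_, ?_⟩
  · intro j hj
    rw [Finset.mem_filter] at hj
    have := hclose j
    rw [hj.2] at this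
    exact this
  · intro _
    rw [hU, Finset.mem_filter] at huU
    exact huU.2

end Pool.Agent.Lib.H18V
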