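import Pool.Agent.Lib.H18V.V0
import Pool.Agent.Lib.H18V.IL
import Pool.Agent.Lib.H18V.J2
import Pool.Agent.Lib.H18V.V2

open Finset

namespace Pool.Agent.Lib.H18V

open Pool.Agent.H44W (ee TF cut)

/-- **Shift lemma.**

Proof. Let `C1, E1` be from `IL`. For `k, k' ∈ Ico K (2K)` and `δ ∈ Ioo (-2N) (2N)` let
`s(k,k',δ) = {Y : ((k,Y),(k',Y+δ)) ∈ E1}`. For `Y ∈ s` put
`λ(Y) = -((k'/d) Th(k,Y) - (k/d) Th(k',Y+δ))`, `d = gcd(k,k') ≤ D^C1`. `JS_coef` gives `T, Ps` with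
`T ≤ L d/k' + 1 ≤ 2 D^C1 L/K` and `‖∑ Ps t ee(t λ(Y))‖ ≥ L/(K D^C1) ≥ T/(2 D^(2 C1))`; in particular
`T ≥ L/(K D^C1)` (norms `≤ 1`), `T ≥ 1` if `s` is not empty. The cell lemma with `2 D^(2 C1)` gives
`s' ⊆ s`, `s'.card ≥ s.card/(800 D^(6 C1))`, and for `Y, Y2 ∈ s'`:
`nn(λ(Y2) - λ(Y)) ≤ 2/(14 T 2 D^(2C1)) ≤ 1/T ≤ K D^C1/L`. Multiply by `d` (`nn_natmul_le`,
`d (k'/d) = k'`): with `a = Y2 - Y`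
`nn(k' (Th(k,Y+a) - Th(k,Y)) - k (Th(k',Y+δ+a) - Th(k',Y+δ))) ≤ D^(2 C1) K/L`. So `E` = all
`(a, ((k,Y),(k',Y+δ)))` with `Y, Y + a ∈ s'(k,k',δ)`; `E.card = ∑ s'.card^2 ≥
(∑ s'.card)^2/(number of (k,k',δ)) ≥ (E1.card/(800 D^(6C1)))^2/(K^2 4N) ≥ K^2 N^3/D^C`. (All the other
properties of `E` are clear: `(k, Y+a) ∈ V` since `Y + a ∈ s`, etc.; `|a| < 2N`.) -/
theorem AS : ∃ C : ℕ, ∀ D : ℝ, ∀ N K L : ℕ, ∀ g ψ : ℤ → ℂ, ∀ V : Finset (ℕ × ℤ),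
    ∀ Th : ℕ × ℤ → ℝ, Dense D N K L g ψ V Th →
    ∃ E : Finset (ℤ × ((ℕ × ℤ) × (ℕ × ℤ))),
      (K : ℝ) ^ 2 * (N : ℝ) ^ 3 / D ^ C ≤ E.card ∧
      ∀ p ∈ E, p.1 ∈ Ioo (-(2 * N : ℤ)) (2 * N) ∧ p.2.1 ∈ V ∧ p.2.2 ∈ V ∧
        (p.2.1.1, p.2.1.2 + p.1) ∈ V ∧ (p.2.2.1, p.2.2.2 + p.1) ∈ V ∧
        nn (p.2.2.1 * (Th (p.2.1.1, p.2.1.2 + p.1) - Th p.2.1) -
          p.2.1.1 * (Th (p.2.2.1, p.2.2.2 + p.1) - Th p.2.2)) ≤ D ^ C * K / L := by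
  sorry

end Pool.Agent.Lib.H18V
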