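import Pool.Agent.Lib.H18V.V0

open Finset

namespace Pool.Agent.Lib.H18V

open Pool.Agent.H44W (ee TF cut)

/-!
# Statements of the blocks of other designers, as propositions
-/

/-- The statement of Lemma P (helper84's block H84V). -/
def LemP (r : ℕ) : Prop := ∃ C : ℕ, ∀ D : ℝ, 2 ≤ D → ∀ K B : ℕ, ∀ ε : ℝ, D ^ C ≤ K → 1 ≤ B →
    0 < ε → D ^ C * ε ≤ 1 → K * (D ^ C * ε) ^ r ≤ 1 →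
    ∀ {ι : Type} (V : Finset ι) (k : ι → ℕ) (th : ι → ℝ),
    (∀ x ∈ V, K ≤ k x ∧ k x < 2 * K) → (∀ m : ℕ, ((V.filter (fun x => k x = m)).card) ≤ B) →
    ∀ E : Finset (ι × ι), E ⊆ V ×ˢ V → ((K : ℝ) * B) ^ 2 / D ≤ E.card →
    (∀ p ∈ E, nn (k p.2 * th p.1 - k p.1 * th p.2) ≤ ε) →
    ∃ ph : ℝ, ∃ q : ℕ, 1 ≤ q ∧ (q : ℝ) ≤ D ^ C ∧ ∃ X ⊆ V, (K : ℝ) * B / D ^ C ≤ X.card ∧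
      ∀ x ∈ X, nn (q * (th x - k x * ph)) ≤ D ^ C * ε / K

/-- B-II. -/
def sS12 : Prop := ∃ C : ℕ, ∀ D : ℝ, 2 ≤ D → ∀ n K M : ℕ, 1 ≤ n → 1 ≤ K → K ≤ M →
    ∀ al be f g W : ℤ → ℂ, (∀ z, ‖al z‖ ≤ 1) → (∀ z, ‖be z‖ ≤ 1) → (∀ z, ‖f z‖ ≤ 1) →
    (∀ z, ‖g z‖ ≤ 1) → (∀ z, ‖W z‖ ≤ 1) → (n : ℝ) ^ 2 / D ≤ ‖TF n (P2 K M al be) W f g‖ →
    K * (4 * M) ≤ 16 * n ∧ ((16 * n : ℕ) : ℝ) ≤ D ^ C * K * (4 * M : ℕ) ∧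
    ∃ E : Finset ((ℕ × ℤ) × (ℕ × ℤ)), E ⊆ Vert K (16 * n) ×ˢ Vert K (16 * n) ∧
      (K : ℝ) ^ 2 * ((16 * n : ℕ) : ℝ) ^ 2 / D ^ C ≤ E.card ∧
      ∀ p ∈ E, ∃ th : ℝ, ((4 * M : ℕ) : ℝ) / D ^ C ≤
        ‖Cr (cut n g) (fun i => cut n g (p.2.2 + p.2.1 * i)) (4 * M) p.1.1 p.1.2 th‖

/-- B-V.1 -/
def sTAU : Prop := ∃ C : ℕ, ∀ D : ℝ, ∀ N K L : ℕ, ∀ g ψ : ℤ → ℂ, ∀ V : Finset (ℕ × ℤ),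
    ∀ Th : ℕ × ℤ → ℝ, Dense D N K L g ψ V Th →
    ∀ ph : ℤ → ℝ, ∀ c : ℕ → ℝ, (∀ x ∈ V, nn (Th x - c x.1 - x.1 * ph x.2) ≤ D / L) →
    ∃ tau : ℤ → ℝ, ∃ E : Finset ((ℕ × ℤ) × ℤ), (K : ℝ) * N * L / D ^ C ≤ E.card ∧
      ∀ p ∈ E, p.1 ∈ Vert K N ∧ p.2 ∈ Ioo (-(L : ℤ)) L ∧ p.1.2 + p.1.1 * p.2 ∈ Ico (-(N : ℤ)) N ∧
        nn (p.1.1 * (ph (p.1.2 + p.1.1 * p.2) - ph p.1.2) - tau p.2) ≤ D ^ C / L ∧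
        (L : ℝ) / D ^ C ≤ ‖Chi ψ L p.2 (tau p.2)‖

/-- B-V.2 -/
def sTAUR : Prop := ∃ C : ℕ, ∀ D : ℝ, 2 ≤ D → ∀ N K L : ℕ, K * L ≤ N → (N : ℝ) ≤ D * K * L →
    D ^ C ≤ K → D ^ C * K ≤ L → ∀ ph tau : ℤ → ℝ, ∀ E : Finset ((ℕ × ℤ) × ℤ),
    (K : ℝ) * N * L / D ≤ E.card →
    (∀ p ∈ E, p.1 ∈ Vert K N ∧ p.2 ∈ Ioo (-(L : ℤ)) L ∧ p.1.2 + p.1.1 * p.2 ∈ Ico (-(N : ℤ)) N ∧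
        nn (p.1.1 * (ph (p.1.2 + p.1.1 * p.2) - ph p.1.2) - tau p.2) ≤ D / L) →
    ∃ I : Finset ℤ, (L : ℝ) / D ^ C ≤ I.card ∧ ∀ i ∈ I, (∃ x : ℕ × ℤ, (x, i) ∈ E) ∧
      ∃ q : ℕ, 1 ≤ q ∧ (q : ℝ) ≤ D ^ C ∧ nn (q * tau i) ≤ D ^ C / L

/-- B-V.3 -/
def sPSI : Prop := ∃ C : ℕ, ∀ D : ℝ, 2 ≤ D → ∀ L : ℕ, 1 ≤ L → ∀ ψ : ℤ → ℂ, (∀ i, ‖ψ i‖ ≤ 1) →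
    ∀ tau : ℤ → ℝ, ∀ I : Finset ℤ, I ⊆ Ioo (-(L : ℤ)) L → (L : ℝ) / D ≤ I.card →
    (∀ i ∈ I, (L : ℝ) / D ≤ ‖Chi ψ L i (tau i)‖) →
    (∀ i ∈ I, ∃ q : ℕ, 1 ≤ q ∧ (q : ℝ) ≤ D ∧ nn (q * tau i) ≤ D / L) →
    ∃ xi : ℝ, (L : ℝ) / D ^ C ≤ ‖∑ i ∈ Ico (0 : ℤ) L, ψ i * ee (i * xi)‖

/-- B-VI.2 -/
def sAVG : Prop := ∃ C : ℕ, ∀ D : ℝ, ∀ N K L : ℕ, ∀ g : ℤ → ℂ, ∀ V : Finset (ℕ × ℤ),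
    ∀ Th : ℕ × ℤ → ℝ, Dense D N K L g (fun _ => 1) V Th → D ^ C ≤ L → ∀ ph : ℝ, ∀ q : ℕ, 1 ≤ q →
    (q : ℝ) ≤ D → (∀ x ∈ V, nn (q * (Th x - x.1 * ph)) ≤ D / L) →
    ∃ M1 : ℕ, 1 ≤ M1 ∧ (L : ℝ) / D ^ C ≤ M1 ∧ M1 * q ≤ L ∧
      (K : ℝ) * N * M1 / D ^ C ≤ ∑ x ∈ Ico K (2 * K) ×ˢ Ico (-(N : ℤ)) (3 * N),
        ‖∑ m ∈ Ico (0 : ℤ) M1, g (x.2 + x.1 * q * m) * ee ((x.2 + x.1 * q * m) * ph)‖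

/-- B-VI.3 -/
def sMEAN : Prop := ∃ C : ℕ, ∀ D : ℝ, 2 ≤ D → ∀ N K M1 q : ℕ, 1 ≤ N → 1 ≤ q → (q : ℝ) ≤ D →
    K * M1 * q ≤ N → (N : ℝ) ≤ D * K * M1 → D ^ C ≤ K → D ^ C ≤ M1 →
    ∀ G : ℤ → ℂ, (∀ z, ‖G z‖ ≤ 1) → (∀ z, z ∉ Ico (-(N : ℤ)) (3 * N) → G z = 0) →
    (K : ℝ) * N * M1 / D ≤ ∑ x ∈ Ico K (2 * K) ×ˢ Ico (-(N : ℤ)) (3 * N),
        ‖∑ m ∈ Ico (0 : ℤ) M1, G (x.2 + x.1 * q * m)‖ →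
    ∃ th : ℝ, (N : ℝ) / D ^ C ≤ ‖∑ z ∈ Ico (-(N : ℤ)) (3 * N), G z * ee (z * th)‖

/-- The conclusion of `B2`. -/
def sB2 (r : ℕ) : Prop := ∃ C : ℕ, ∀ D : ℝ, ∀ N K L : ℕ, ∀ g ψ : ℤ → ℂ, ∀ V : Finset (ℕ × ℤ),
    ∀ Th : ℕ × ℤ → ℝ, Dense D N K L g ψ V Th → D ^ C ≤ K → D ^ C * K ≤ L →
    (K : ℝ) * (D ^ C * K / L) ^ r ≤ 1 →
    ∃ xi : ℝ, (L : ℝ) / D ^ C ≤ ‖∑ i ∈ Ico (0 : ℤ) L, ψ i * ee (i * xi)‖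

/-- The conclusion of `B3`. -/
def sB3 (r : ℕ) : Prop := ∃ C : ℕ, ∀ D : ℝ, ∀ N K L : ℕ, ∀ g : ℤ → ℂ, ∀ V : Finset (ℕ × ℤ),
    ∀ Th : ℕ × ℤ → ℝ, Dense D N K L g (fun _ => 1) V Th → D ^ C ≤ K → D ^ C * K ≤ L →
    (K : ℝ) * (D ^ C * K / L) ^ r ≤ 1 → (∀ z, z ∉ Ico (-(N : ℤ)) (3 * N) → g z = 0) →
    ∃ th : ℝ, (N : ℝ) / D ^ C ≤ ‖∑ z ∈ Ico (-(N : ℤ)) (3 * N), g z * ee (z * th)‖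

end Pool.Agent.Lib.H18V
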