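import Pool.Agent.Lib.H18V.V0

open Finset

namespace Pool.Agent.Lib.H18V

open Pool.Agent.H44W (ee TF cut)

/-- From `nn (q u)` small to a rational approximation of `u`.

Proof: `m` the integer with `nn(q u) = |q u - m|`; `p = m mod q`, `m = p + q c`:
`u - p/q - c = (q u - m)/q`, so `nn(u - p/q) ≤ |q u - m|/q ≤ nn(q u)`. -/
theorem rat_approx (q : ℕ) (hq : 1 ≤ q) (u : ℝ) :
    ∃ p ∈ range q, nn (u - (p : ℝ) / q) ≤ nn (q * u) := by
  sorry

/-- Pigeonhole: one of at most `m` colours is used on a proportion `1/m`. -/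
theorem pigeon {α β : Type} [DecidableEq β] (s : Finset α) (t : Finset β) (f : α → β)
    (hf : ∀ a ∈ s, f a ∈ t) (m : ℝ) (hm : (t.card : ℝ) ≤ m) (hs : s.Nonempty) :
    ∃ b ∈ t, (s.card : ℝ) / m ≤ (s.filter (fun a => f a = b)).card := by
  sorry

/-- Popularity: if a set `E` of pairs with second (first) coordinates in `t` has at least `m` elements and
every fibre has at most `B` elements, then many fibres have at least half of the average.

Proof: the fibres with fewer than `m/(2 t.card)` elements contain at most `m/2` elements of `E`; the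
others at most `B` each. -/
theorem popular {α β : Type} [DecidableEq β] (E : Finset α) (t : Finset β) (f : α → β)
    (hf : ∀ a ∈ E, f a ∈ t) (m B T : ℝ) (hm : 0 < m) (hE : m ≤ E.card) (hT : (t.card : ℝ) ≤ T)
    (hB0 : 0 < B) (hB : ∀ b ∈ t, ((E.filter (fun a => f a = b)).card : ℝ) ≤ B) :
    m / (2 * B) ≤ (t.filter (fun b => m / (2 * T) ≤ ((E.filter (fun a => f a = b)).card : ℝ))).card := by
  sorry

end Pool.Agent.Lib.H18V
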