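import Pool.Agent.Lib.H18V.V0
import Pool.Agent.Lib.H18V.AS
import Pool.Agent.Lib.H18V.LP
import Pool.Agent.Lib.H18V.PH0

open Finset

namespace Pool.Agent.Lib.H18V

open Pool.Agent.H44W (ee TF cut)

/-- For one good shift `a`: Lemma P.

Proof: apply `hP : LemP r` (constant `C1`) with `D^(C0+2)` for `D`, `B = 2N`, `ι = ℕ × ℤ`, `k = Prod.fst`,
`th x = Th (x.1, x.2 + a) - Th x`, `V` = `V.filter (fun x => (x.1, x.2 + a) ∈ V)` (fibres over `k` have at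
most `2N` elements, since `V ⊆ Vert K N`), `ε = D^C0 K/L`. Choose `C` much larger than `C0, C1` (depending on
`r, C0` only). The bound `D^.. ε/K = D^../L`. Then `rat_approx` and nothing else. -/
theorem PH1 (r C0 : ℕ) (hP : LemP r) : ∃ C : ℕ, ∀ D : ℝ, 2 ≤ D → ∀ N K L : ℕ, 1 ≤ N → 1 ≤ L →
    ∀ V : Finset (ℕ × ℤ), V ⊆ Vert K N → ∀ Th : ℕ × ℤ → ℝ, D ^ C ≤ K → D ^ C * K ≤ L →
    (K : ℝ) * (D ^ C * K / L) ^ r ≤ 1 → ∀ a : ℤ, ∀ E : Finset ((ℕ × ℤ) × (ℕ × ℤ)),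
    (K : ℝ) ^ 2 * (N : ℝ) ^ 2 / D ^ C0 ≤ E.card →
    (∀ p ∈ E, p.1 ∈ V ∧ p.2 ∈ V ∧ (p.1.1, p.1.2 + a) ∈ V ∧ (p.2.1, p.2.2 + a) ∈ V ∧
      nn (p.2.1 * (Th (p.1.1, p.1.2 + a) - Th p.1) - p.1.1 * (Th (p.2.1, p.2.2 + a) - Th p.2)) ≤
        D ^ C0 * K / L) →
    ∃ ph : ℝ, ∃ q : ℕ, 1 ≤ q ∧ (q : ℝ) ≤ D ^ C ∧ ∃ X ⊆ V, (K : ℝ) * N / D ^ C ≤ X.card ∧
      ∀ x ∈ X, (x.1, x.2 + a) ∈ V ∧
        ∃ p ∈ range q, nn (Th (x.1, x.2 + a) - Th x - x.1 * ph - (p : ℝ) / q) ≤ D ^ C / L := by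
  sorry

end Pool.Agent.Lib.H18V
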