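import Pool.Agent.Lib.H18V.V0
import Pool.Agent.Lib.H18V.PH0

open Finset

namespace Pool.Agent.Lib.H18V

open Pool.Agent.H44W (ee TF cut)

/-- The last pigeonhole of `PHI` (no number theory).

Proof: the pairs `(a, x)`, `a ∈ A`, `x ∈ X a`: at least `N/D * KN/D`. Their coordinates `x.2` lie in
`Ico (-N) N` (`2N` values): `pigeon` gives `Y0` with at least `K N/(2 D^2)` pairs `(a, k)` with `a ∈ A`,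
`(k, Y0) ∈ X a` (for each `(a, k)` one). The pairs `(p, q a)` take at most `(D+1)^2 ≤ D^4` values: `pigeon`
again (choose `p` for each pair): `(p0, q0)`. Put `V' = {(k, Y0 + a)}`, `ph' Y' = ph (Y' - Y0)`,
`c k = Th (k, Y0) + p0/q0`; `(a,k) ↦ (k, Y0 + a)` is injective. -/
theorem PH2 : ∃ C : ℕ, ∀ D : ℝ, 2 ≤ D → ∀ N K L : ℕ, 1 ≤ N → 1 ≤ K → ∀ V : Finset (ℕ × ℤ),
    V ⊆ Vert K N → ∀ Th : ℕ × ℤ → ℝ, ∀ A : Finset ℤ, (N : ℝ) / D ≤ A.card →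
    ∀ ph : ℤ → ℝ, ∀ q : ℤ → ℕ, ∀ X : ℤ → Finset (ℕ × ℤ),
    (∀ a ∈ A, 1 ≤ q a ∧ (q a : ℝ) ≤ D ∧ X a ⊆ V ∧ (K : ℝ) * N / D ≤ (X a).card ∧
      ∀ x ∈ X a, (x.1, x.2 + a) ∈ V ∧
        ∃ p ∈ range (q a), nn (Th (x.1, x.2 + a) - Th x - x.1 * ph a - (p : ℝ) / q a) ≤ D / L) →
    ∃ ph' : ℤ → ℝ, ∃ c : ℕ → ℝ, ∃ V' ⊆ V, (K : ℝ) * N / D ^ C ≤ V'.card ∧
      ∀ x ∈ V', nn (Th x - c x.1 - x.1 * ph' x.2) ≤ D ^ C / L := by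
  sorry

end Pool.Agent.Lib.H18V
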