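import Pool.Agent.Lib.H18V.V0
import Pool.Agent.Lib.H18V.PH1
import Pool.Agent.Lib.H18V.PH2

open Finset

namespace Pool.Agent.Lib.H18V

open Pool.Agent.H44W (ee TF cut)

/-- **`Θ_k(Y) = c_k + k Φ(Y) + O(D^C / L)` on a dense set.**

Proof: `AS` (constant `C1`): `E`. `popular` with `f = Prod.fst`, `t = Ioo (-2N) (2N)`, `B = 4 K^2 N^2` (each
fibre injects into `Vert × Vert`), `m = K^2 N^3/D^C1`: at least `N/(8 D^C1)` values `a` have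
`≥ K^2 N^2/(8 D^C1)` elements in the fibre. `PH1` with `C0 = C1 + 3` for each of them (choose the data with
`Classical.choose`, i.e. `choose`); `PH2` with `D^C2`. -/
theorem PHI (r : ℕ) (hP : LemP r) : ∃ C : ℕ, ∀ D : ℝ, ∀ N K L : ℕ, ∀ g ψ : ℤ → ℂ,
    ∀ V : Finset (ℕ × ℤ), ∀ Th : ℕ × ℤ → ℝ, Dense D N K L g ψ V Th → D ^ C ≤ K → D ^ C * K ≤ L →
    (K : ℝ) * (D ^ C * K / L) ^ r ≤ 1 →
    ∃ ph : ℤ → ℝ, ∃ c : ℕ → ℝ, ∃ V' ⊆ V, (K : ℝ) * N / D ^ C ≤ V'.card ∧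
      ∀ x ∈ V', nn (Th x - c x.1 - x.1 * ph x.2) ≤ D ^ C / L := by
  sorry

end Pool.Agent.Lib.H18V
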