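import Pool.Agent.Lib.H18V.V0
import Pool.Agent.Lib.H18V.PHI

open Finset

namespace Pool.Agent.Lib.H18V

open Pool.Agent.H44W (ee TF cut)

/-- A dense set stays dense if `V` is replaced by a dense subset and `D` by a larger number. -/
theorem Dense.mono {D D' : ℝ} {N K L : ℕ} {g ψ : ℤ → ℂ} {V V' : Finset (ℕ × ℤ)} {Th : ℕ × ℤ → ℝ}
    (h : Dense D N K L g ψ V Th) (hD : D ≤ D') (hV : V' ⊆ V) (hc : (K : ℝ) * N / D' ≤ V'.card) :
    Dense D' N K L g ψ V' Th := by
  sorry

/-- **B2.** `PHI`, `TAU`, `TAUR`, `PSI` one after the other.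

Proof: `PHI r hP` (constant `C1`): `ph, c, V'`. `hT` with `D^C1'` (`C1' = max C1 1`; `Dense.mono`):
`tau, E`. `hR` with `D^C2`, `C2` a power such that all the hypotheses hold: `I`. `hS` with `D^C3`: for
`i ∈ I` there is `(x, i) ∈ E`, so `i ∈ Ioo (-L) L` and `‖Chi ψ L i (tau i)‖` is large. Choose the final `C` as
the sum/product of all constants (`pow_le_pow_right₀`, `one_le` from `2 ≤ D`). -/
theorem B2 (r : ℕ) (hP : LemP r) (hT : sTAU) (hR : sTAUR) (hS : sPSI) : sB2 r := by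
  sorry

end Pool.Agent.Lib.H18V
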