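import Pool.Agent.Lib.H18V.V0
import Pool.Agent.Lib.H18V.IL
import Pool.Agent.Lib.H18V.J2
import Pool.Agent.Lib.H18V.LP

open Finset

namespace Pool.Agent.Lib.H18V

open Pool.Agent.H44W (ee TF cut)

/-- With `ψ = 1`, Lemma P directly.

Proof: `IL` (constant `C1`, set `E`): for `p ∈ E`, `‖JS (fun _ => 1) ..‖ ≥ L/(K D^C1)`, so by `JS_one`
`nn((k'/d) Th x - (k/d) Th x') ≤ K D^C1/(2L)`; multiply by `d ≤ D^C1` (`nn_natmul_le`, `d (k'/d) = k'`):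
`nn(k' Th x - k Th x') ≤ D^(2 C1) K/L =: ε`. `hP` with `D^(C1+2)`, `B = 2N`, `k = Prod.fst`, `th = Th`. -/
theorem LIN (r : ℕ) (hP : LemP r) : ∃ C : ℕ, ∀ D : ℝ, ∀ N K L : ℕ, ∀ g : ℤ → ℂ,
    ∀ V : Finset (ℕ × ℤ), ∀ Th : ℕ × ℤ → ℝ, Dense D N K L g (fun _ => 1) V Th → D ^ C ≤ K →
    D ^ C * K ≤ L → (K : ℝ) * (D ^ C * K / L) ^ r ≤ 1 →
    ∃ ph : ℝ, ∃ q : ℕ, 1 ≤ q ∧ (q : ℝ) ≤ D ^ C ∧ ∃ X ⊆ V, (K : ℝ) * N / D ^ C ≤ X.card ∧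
      ∀ x ∈ X, nn (q * (Th x - x.1 * ph)) ≤ D ^ C / L := by
  sorry

end Pool.Agent.Lib.H18V
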