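import Pool.Agent.Lib.H18V.V0
import Pool.Agent.Lib.H18V.LIN
import Pool.Agent.Lib.H18V.B2

open Finset

namespace Pool.Agent.Lib.H18V

open Pool.Agent.H44W (ee TF cut)

/-- **B3.** `LIN`, `AVG`, `MEAN` one after the other.

Proof: `LIN r hP` (constant `C1`): `ph, q, X`. `hA` with `D' = D^(C1+1)` and `V = X` (`Dense.mono`): `M1`.
`hM` with `D'' = D'^(C2+1)`, `G z = g z * ee (z * ph)`: the sum in `hA` is the sum in `hM` (push_cast);
`K M1 q ≤ K L ≤ N`, `N ≤ D K L ≤ D D'^C2 K M1`. Conclusion with `th + ph`. -/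
theorem B3 (r : ℕ) (hP : LemP r) (hA : sAVG) (hM : sMEAN) : sB3 r := by
  sorry

end Pool.Agent.Lib.H18V
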