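import Pool.Agent.Lib.H18V.V0
import Pool.Agent.Lib.H18V.LP

open Finset

namespace Pool.Agent.Lib.H18V

open Pool.Agent.H44W (ee TF cut)

/-- The parameters: from `D^C ≤ K ≤ n^(1/2-eta)` and `16 n ≤ D^C0 K 4M` to the hypotheses of `B2`, `B3`
with `N = 16 n`, `L = 4 M`, the number `D1 = D^C1` and the exponent `C2`.

Proof: `K ≤ n^(1/2)`, `K/L ≤ D^C0 K^2/(16 n) ≤ D^C0 n^(-2 eta)`. With `r = ⌈1/(2 eta)⌉₊ + 1`, `n^(2 eta r) ≥ n`: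
`K (D1^C2 K/L)^r ≤ n^(1/2) D^((C0 + C1 C2) r) / n ≤ 1` since `D^C ≤ K ≤ n^(1/2)`, for
`C ≥ (C0 + C1 C2) r + 1`. `D1^C2 K ≤ L`: the same with `D^(C0 + C1 C2) ≤ n^(2 eta)`, which follows from
`D^C ≤ n^(1/2)` if `C ≥ (C0 + C1 C2)/(4 eta)`. `K ≤ M`: from `D^C1 .. K ≤ L = 4 M` with one more factor. -/
theorem CT1 (eta : ℝ) (heta : 0 < eta) (C0 C1 C2 : ℕ) : ∃ C : ℕ, ∀ n K M : ℕ, ∀ D : ℝ, 2 ≤ D →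
    D ^ C ≤ K → (K : ℝ) ≤ (n : ℝ) ^ (1 / 2 - eta) →
    ((16 * n : ℕ) : ℝ) ≤ D ^ C0 * K * (4 * M : ℕ) →
    1 ≤ n ∧ 1 ≤ K ∧ K ≤ M ∧ (D ^ C1) ^ C2 ≤ K ∧ (D ^ C1) ^ C2 * K ≤ (4 * M : ℕ) ∧
      (K : ℝ) * ((D ^ C1) ^ C2 * K / (4 * M : ℕ)) ^ (⌈1 / (2 * eta)⌉₊ + 1) ≤ 1 := by
  sorry

/-- The kernel must be somewhere nonzero and large: `K M ≥ n/(3D)` from the trivial bound.

Proof: `‖P2 K M al be m‖ ≤` number of `(a,b)` with `ab = m`; so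
`‖TF‖ ≤ ∑_{a,b} #{(x,y) ∈ Icc 1 n × Icc 1 n : x + y = ab} ≤ K M n`. -/
theorem CT0 (n K M : ℕ) (al be f g W : ℤ → ℂ) (hal : ∀ z, ‖al z‖ ≤ 1) (hbe : ∀ z, ‖be z‖ ≤ 1)
    (hf : ∀ z, ‖f z‖ ≤ 1) (hg : ∀ z, ‖g z‖ ≤ 1) (hW : ∀ z, ‖W z‖ ≤ 1) :
    ‖TF n (P2 K M al be) W f g‖ ≤ K * M * n := by
  sorry

end Pool.Agent.Lib.H18V
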