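import Pool.Agent.Lib.H18V.V0
import Pool.Agent.Lib.H18V.LP
import Pool.Agent.Lib.H18V.PH0
import Pool.Agent.Lib.H18V.B2

open Finset

namespace Pool.Agent.Lib.H18V

open Pool.Agent.H44W (ee TF cut)

/-- From many correlated pairs to many progressions on which `g` has a large Fourier coefficient.

Proof: let `E` be the set of pairs. `popular` with `f = Prod.snd`, `t = Vert K N`, `B = 2 K N`,
`T = 2 K N`: at least `K N/(4 D)` vertices `x'` have at least `K N/(4 D)` partners `x`. For each of them the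
set `V_{x'}` of the partners, `ψ i = g (x'.2 + x'.1 * i)` and chosen frequencies are `Dense (4 D)`, so `hB2`
(constant `C1`) applies. The conclusion `‖∑ ψ i ee(i xi)‖ ≥ L/(4D)^C1` is the required one:
`Cr g (fun _ => 1) L x'.1 x'.2 xi = ∑ g(Y' + k' i) * 1 * ee(i xi)`. So the set of these `x'` with the
frequencies `xi(x')` is `Dense (D^C)` for `ψ = 1`. -/
theorem CT2 (r : ℕ) (hB : sB2 r) : ∃ C : ℕ, ∀ D : ℝ, 2 ≤ D → ∀ N K L : ℕ, 1 ≤ K → K ≤ L →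
    K * L ≤ N → (N : ℝ) ≤ D * K * L → ∀ g : ℤ → ℂ, (∀ z, ‖g z‖ ≤ 1) → D ^ C ≤ K → D ^ C * K ≤ L →
    (K : ℝ) * (D ^ C * K / L) ^ r ≤ 1 →
    ∀ E : Finset ((ℕ × ℤ) × (ℕ × ℤ)), E ⊆ Vert K N ×ˢ Vert K N →
    (K : ℝ) ^ 2 * (N : ℝ) ^ 2 / D ≤ E.card →
    (∀ p ∈ E, ∃ th : ℝ, (L : ℝ) / D ≤
      ‖Cr g (fun i => g (p.2.2 + p.2.1 * i)) L p.1.1 p.1.2 th‖) →
    ∃ V : Finset (ℕ × ℤ), ∃ Th : ℕ × ℤ → ℝ, Dense (D ^ C) N K L g (fun _ => 1) V Th := by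
  sorry

end Pool.Agent.Lib.H18V
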