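import Pool.Agent.Lib.H18V.V0
import Pool.Agent.Lib.H18V.CT1
import Pool.Agent.Lib.H18V.CT2
import Pool.Agent.Lib.H18V.B3

open Finset

namespace Pool.Agent.Lib.H18V

open Pool.Agent.H44W (ee TF cut)

/-- **Module B.**

Proof: `r = ⌈1/(2 eta)⌉₊ + 1`. If `n = 0`: `(K : ℝ) ≤ 0^(1/2 - eta)`... then `n/D^C = 0`, any `th`. Otherwise
`CT0`: `n^2/D ≤ K M n`, so `16 n ≤ D^5 K 4M` and `CT1` gives `K ≤ M`, so `hS` (constant `C0`) applies; then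
`CT1` with `C0 + 5` etc. gives the hypotheses of `CT2` with `N = 16 n`, `L = 4 M`, `g = cut n g`,
`D := D^C0`; then `hB3` with `D := (D^C0)^C1`. `cut n g` vanishes outside `Icc 1 n`, so
`∑ z ∈ Ico (-16n) (48n), cut n g z * ee(z th) = ∑ z ∈ Icc 1 n, g z * ee(z th)`. -/
theorem class_two (eta : ℝ) (heta : 0 < eta) (hS : sS12)
    (hB2 : sB2 (⌈1 / (2 * eta)⌉₊ + 1)) (hB3 : sB3 (⌈1 / (2 * eta)⌉₊ + 1)) :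
    ∃ C : ℕ, ∀ n K M : ℕ, ∀ D : ℝ, 2 ≤ D → D ^ C ≤ K → (K : ℝ) ≤ (n : ℝ) ^ (1 / 2 - eta) →
    ∀ al be f g W : ℤ → ℂ, (∀ z, ‖al z‖ ≤ 1) → (∀ z, ‖be z‖ ≤ 1) → (∀ z, ‖f z‖ ≤ 1) →
    (∀ z, ‖g z‖ ≤ 1) → (∀ z, ‖W z‖ ≤ 1) → (n : ℝ) ^ 2 / D ≤ ‖TF n (P2 K M al be) W f g‖ →
    ∃ th : ℝ, (n : ℝ) / D ^ C ≤ ‖∑ y ∈ Icc (1 : ℤ) n, g y * ee (y * th)‖ := by
  sorry

end Pool.Agent.Lib.H18V
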