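import Pool.Agent.Lib.H18V.V0
import Pool.Agent.Lib.H18V.CT
import Pool.Agent.Lib.H44W.W1

open Finset

namespace Pool.Agent.Lib.H18V

open Pool.Agent.H44W (ee TF cut)

/-- The form consumed by H44W (`tII` with coefficients on the natural numbers).

Proof: `tII K M al be m = P2 K M (fun a => al a.toNat) (fun b => be b.toNat) m` (both are sums over the pairs
`a ∈ [K,2K)`, `b ∈ [M,2M)` with `a b = m`; reindex by the cast `ℕ → ℤ`), so `TF` is the same; and
`ee (th * z) = ee (z * th)`. -/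
theorem classTwo_of (eta : ℝ) (heta : 0 < eta) (hS : sS12)
    (hB2 : sB2 (⌈1 / (2 * eta)⌉₊ + 1)) (hB3 : sB3 (⌈1 / (2 * eta)⌉₊ + 1)) :
    ∃ C : ℕ, Pool.Agent.H44W.ClassTwo eta C := by
  sorry

end Pool.Agent.Lib.H18V
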