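import Pool.Agent.Lib.H44W.W0

/-!
# Project H18V (MP_443e5f_co, candidate T, module B): the inverse theorem for class II kernels

Definitions. See `PROOF.md` in this folder. `ee x = exp (2 π i x)` and `TF` are those of `H44W`.

Conventions: `K` is the scale of the differences `k ∈ [K, 2K)` of the progressions `Y + k i`,
`0 ≤ i < L`, with `Y ∈ [-N, N)`; always `K L ≤ N ≤ D K L`. Losses are powers of `D ≥ 2`.
-/

open Finset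

namespace Pool.Agent.Lib.H18V

open Pool.Agent.H44W (ee TF cut)

noncomputable section

/-- Distance to the nearest integer. -/
def nn (x : ℝ) : ℝ := |x - round x|

/-- The correlation of `g` with `ψ(i) e(-iθ)` along the progression `Y + k i`, `0 ≤ i < L`. -/
def Cr (g ψ : ℤ → ℂ) (L k : ℕ) (Y : ℤ) (θ : ℝ) : ℂ :=
  ∑ i ∈ Ico (0 : ℤ) L, g (Y + k * i) * (starRingEnd ℂ) (ψ i) * ee (i * θ)

/-- The inner product of the functions `ψ(i) e(-iθ)` on the progression `Y + k i` and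
`ψ(i') e(-i'θ')` on the progression `Y' + k' i'`, where `δ = Y' - Y`. -/
def JS (ψ : ℤ → ℂ) (L k k' : ℕ) (δ : ℤ) (θ θ' : ℝ) : ℂ :=
  ∑ p ∈ (Ico (0 : ℤ) L ×ˢ Ico (0 : ℤ) L).filter (fun p => (k : ℤ) * p.1 - k' * p.2 = δ),
    ψ p.1 * (starRingEnd ℂ) (ψ p.2) * ee (-(p.1 * θ) + p.2 * θ')

/-- The Fourier coefficient of `j ↦ ψ(j) conj ψ(j - i)` on `0 ≤ j, j - i < L`. -/
def Chi (ψ : ℤ → ℂ) (L : ℕ) (i : ℤ) (τ : ℝ) : ℂ :=
  ∑ j ∈ (Ico (0 : ℤ) L).filter (fun j => 0 ≤ j - i ∧ j - i < L),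
    ψ j * (starRingEnd ℂ) (ψ (j - i)) * ee (j * τ)

/-- The vertices: pairs `(k, Y)` with `K ≤ k < 2K`, `-N ≤ Y < N`. -/
def Vert (K N : ℕ) : Finset (ℕ × ℤ) := Ico K (2 * K) ×ˢ Ico (-(N : ℤ)) N

/-- The class II kernel `∑ α_a β_b`, `ab = m`, `K ≤ a < 2K`, `M ≤ b < 2M`. -/
def P2 (K M : ℕ) (al be : ℤ → ℂ) (m : ℤ) : ℂ :=
  ∑ p ∈ (Ico (K : ℤ) (2 * K) ×ˢ Ico (M : ℤ) (2 * M)).filter (fun p => p.1 * p.2 = m),
    al p.1 * be p.2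

/-- The common hypotheses of the modules IL, AS, PHI, TAU, B2: a dense set `V` of vertices on which
`g` correlates with `ψ(i) e(-iΘ)`. -/
structure Dense (D : ℝ) (N K L : ℕ) (g ψ : ℤ → ℂ) (V : Finset (ℕ × ℤ)) (Th : ℕ × ℤ → ℝ) :
    Prop where
  hD : 2 ≤ D
  hK : 1 ≤ K
  hKL : K ≤ L
  hN : K * L ≤ N
  hN' : (N : ℝ) ≤ D * K * L
  hg : ∀ z, ‖g z‖ ≤ 1
  hψ : ∀ i, ‖ψ i‖ ≤ 1
  sub : V ⊆ Vert K N
  card : (K : ℝ) * N / D ≤ V.card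
  corr : ∀ x ∈ V, (L : ℝ) / D ≤ ‖Cr g ψ L x.1 x.2 (Th x)‖

end

end Pool.Agent.Lib.H18V
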