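import Pool.Agent.Lib.H18V.Defs

/-!
# H18V, V0: basic facts on `nn` and `ee`
-/

open Finset

namespace Pool.Agent.Lib.H18V

open Pool.Agent.H44W (ee TF cut)

theorem nn_nonneg (x : ℝ) : 0 ≤ nn x := abs_nonneg _

theorem nn_le_half (x : ℝ) : nn x ≤ 1 / 2 := abs_sub_round x

theorem nn_le_int (x : ℝ) (m : ℤ) : nn x ≤ |x - m| := round_le x m

theorem nn_le_abs (x : ℝ) : nn x ≤ |x| := by
  have h := nn_le_int x 0
  simpa using h

theorem nn_exists (x : ℝ) : ∃ m : ℤ, nn x = |x - m| := ⟨round x, rfl⟩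

theorem nn_add_int (x : ℝ) (m : ℤ) : nn (x + m) = nn x := by
  unfold nn
  rw [round_add_intCast]
  push_cast
  congr 1
  ring

theorem nn_sub_int (x : ℝ) (m : ℤ) : nn (x - m) = nn x := by
  have h := nn_add_int x (-m)
  push_cast at h
  rw [← sub_eq_add_neg] at h
  exact h

theorem nn_add_le (x y : ℝ) : nn (x + y) ≤ nn x + nn y := by
  obtain ⟨a, ha⟩ := nn_exists x
  obtain ⟨b, hb⟩ := nn_exists y
  rw [ha, hb]
  refine (nn_le_int (x + y) (a + b)).trans ?_
  push_cast
  have : x + y - (a + b) = (x - a) + (y - b) := by ring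
  rw [this]
  exact abs_add_le _ _

theorem nn_neg (x : ℝ) : nn (-x) = nn x := by
  apply le_antisymm
  · obtain ⟨a, ha⟩ := nn_exists x
    rw [ha]
    refine (nn_le_int (-x) (-a)).trans ?_
    push_cast
    rw [← abs_neg]
    apply le_of_eq
    congr 1
    ring
  · obtain ⟨a, ha⟩ := nn_exists (-x)
    rw [ha]
    refine (nn_le_int x (-a)).trans ?_
    push_cast
    rw [← abs_neg]
    apply le_of_eq
    congr 1
    ring

theorem nn_sub_le (x y : ℝ) : nn (x - y) ≤ nn x + nn y := by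
  have h := nn_add_le x (-y)
  rwa [nn_neg, ← sub_eq_add_neg] at h

theorem nn_sub_comm (x y : ℝ) : nn (x - y) = nn (y - x) := by
  rw [← nn_neg, neg_sub]

/-- triangle inequality for differences -/
theorem nn_tri (x y z : ℝ) : nn (x - z) ≤ nn (x - y) + nn (y - z) := by
  have h := nn_add_le (x - y) (y - z)
  rwa [sub_add_sub_cancel] at h

theorem nn_mul_le (m : ℤ) (x : ℝ) : nn (m * x) ≤ |(m : ℝ)| * nn x := by
  obtain ⟨a, ha⟩ := nn_exists x
  rw [ha]
  refine (nn_le_int (m * x) (m * a)).trans ?_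
  push_cast
  rw [← mul_sub, abs_mul]

theorem nn_natmul_le (m : ℕ) (x : ℝ) : nn (m * x) ≤ m * nn x := by
  have h := nn_mul_le (m : ℤ) x
  push_cast at h
  rwa [abs_of_nonneg (Nat.cast_nonneg m)] at h

/-- a number smaller than one half in absolute value is its own distance -/
theorem nn_eq_abs {x : ℝ} (h : |x| ≤ 1 / 2) : nn x = |x| := by
  apply le_antisymm (nn_le_abs x)
  obtain ⟨a, ha⟩ := nn_exists x
  rw [ha]
  rcases eq_or_ne a 0 with h0 | h0
  · subst h0; simp
  · have h1 : (1 : ℝ) ≤ |(a : ℝ)| := by exact_mod_cast Int.one_le_abs h0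
    have h2 : |(a : ℝ)| ≤ |x - a| + |x| := by
      have h3 := abs_sub_abs_le_abs_sub (a : ℝ) x
      rw [abs_sub_comm] at h3
      linarith
    linarith

/-- two reals at distance `≤ 1/2` whose difference is close to an integer -/
theorem abs_le_of_nn {x c : ℝ} (h : |x| ≤ 1 / 2) (h2 : nn x ≤ c) : |x| ≤ c := by
  rwa [nn_eq_abs h] at h2

theorem nn_zero : nn 0 = 0 := by simp [nn]

theorem nn_int (m : ℤ) : nn m = 0 := by simp [nn]

theorem ee_add (x y : ℝ) : ee (x + y) = ee x * ee y := by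
  unfold ee
  rw [← Complex.exp_add]
  congr 1
  push_cast
  ring

theorem ee_zero : ee 0 = 1 := by simp [ee]

theorem norm_ee (x : ℝ) : ‖ee x‖ = 1 := by
  unfold ee
  have : (2 * Real.pi * x * Complex.I : ℂ) = ((2 * Real.pi * x : ℝ) : ℂ) * Complex.I := by
    push_cast; ring
  rw [this, Complex.norm_exp_ofReal_mul_I]

theorem ee_ne_zero (x : ℝ) : ee x ≠ 0 := by
  unfold ee
  exact Complex.exp_ne_zero _

theorem ee_int (m : ℤ) : ee m = 1 := by
  unfold ee
  rw [Complex.exp_eq_one_iff]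
  exact ⟨m, by push_cast; ring⟩

theorem ee_add_int (x : ℝ) (m : ℤ) : ee (x + m) = ee x := by
  rw [ee_add, ee_int, mul_one]

theorem ee_neg (x : ℝ) : ee (-x) = (starRingEnd ℂ) (ee x) := by
  unfold ee
  rw [← Complex.exp_conj]
  congr 1
  simp only [map_mul, Complex.conj_ofReal, Complex.conj_I, map_ofNat]
  push_cast
  ring

theorem ee_neg_mul (x : ℝ) : ee (-x) * ee x = 1 := by
  rw [← ee_add, neg_add_cancel, ee_zero]

theorem ee_sub (x y : ℝ) : ee (x - y) = ee x * (starRingEnd ℂ) (ee y) := by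
  rw [sub_eq_add_neg, ee_add, ee_neg]

theorem norm_ee_sub_one_le (x : ℝ) : ‖ee x - 1‖ ≤ 2 * Real.pi * |x| := by
  unfold ee
  have : (2 * Real.pi * x * Complex.I : ℂ) = Complex.I * ((2 * Real.pi * x : ℝ) : ℂ) := by
    push_cast; ring
  rw [this]
  refine (Real.norm_exp_I_mul_ofReal_sub_one_le (x := 2 * Real.pi * x)).trans ?_
  rw [Real.norm_eq_abs, abs_mul, abs_mul, abs_of_pos Real.pi_pos, abs_of_pos (by norm_num : (0:ℝ) < 2)]

theorem norm_ee_sub_le (x y : ℝ) : ‖ee x - ee y‖ ≤ 2 * Real.pi * |x - y| := by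
  have h : ee x - ee y = (ee (x - y) - 1) * ee y := by
    rw [sub_mul, ← ee_add, sub_add_cancel, one_mul]
  rw [h, norm_mul, norm_ee, mul_one]
  exact norm_ee_sub_one_le _

theorem norm_ee_sub_one_nn (x : ℝ) : ‖ee x - 1‖ ≤ 2 * Real.pi * nn x := by
  obtain ⟨m, hm⟩ := nn_exists x
  have h : ee x = ee (x - m) := by
    have := ee_add_int (x - m) m
    rw [sub_add_cancel] at this
    exact this
  rw [h, hm]
  exact norm_ee_sub_one_le _

theorem norm_ee_sub_nn (x y : ℝ) : ‖ee x - ee y‖ ≤ 2 * Real.pi * nn (x - y) := by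
  have h : ee x - ee y = (ee (x - y) - 1) * ee y := by
    rw [sub_mul, ← ee_add, sub_add_cancel, one_mul]
  rw [h, norm_mul, norm_ee, mul_one]
  exact norm_ee_sub_one_nn _

/-- `|∑_{t < T} ee(t x)| ≤ 1 / (2 nn x)`, in product form. -/
theorem geom_ee (x : ℝ) (T : ℕ) : ‖∑ t ∈ range T, ee (t * x)‖ * (2 * nn x) ≤ 1 := by
  have h1 : 4 * nn x ≤ ‖ee x - 1‖ := by
    obtain ⟨m, hm⟩ := nn_exists x
    have h : ee x = ee (x - m) := by
      have := ee_add_int (x - m) m
      rw [sub_add_cancel] at this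
      exact this
    rw [h, hm]
    have hy : |x - m| ≤ 1 / 2 := by rw [← hm]; exact nn_le_half x
    set y := x - m with hydef
    unfold ee
    have e1 : (2 * Real.pi * y * Complex.I : ℂ) = Complex.I * ((2 * Real.pi * y : ℝ) : ℂ) := by
      push_cast; ring
    rw [e1, Complex.norm_exp_I_mul_ofReal_sub_one, norm_mul, Real.norm_ofNat, Real.norm_eq_abs,
      show 2 * Real.pi * y / 2 = Real.pi * y by ring]
    have h3 := Real.mul_abs_le_abs_sin (x := Real.pi * y) (by
      rw [abs_mul, abs_of_pos Real.pi_pos]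
      nlinarith [Real.pi_pos, abs_nonneg y])
    rw [abs_mul, abs_of_pos Real.pi_pos] at h3
    have h4 : 2 / Real.pi * (Real.pi * |y|) = 2 * |y| := by
      field_simp
    rw [h4] at h3
    linarith
  have h2 : (∑ t ∈ range T, ee (t * x)) * (ee x - 1) = ee (T * x) - 1 := by
    have h5 : ∀ t : ℕ, ee (t * x) = ee x ^ t := by
      intro t
      induction t with
      | zero => simp [ee_zero]
      | succ t ih =>
        rw [pow_succ, ← ih, ← ee_add]
        congr 1
        push_cast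
        ring
    simp only [h5]
    exact geom_sum_mul (ee x) T
  have h6 : ‖∑ t ∈ range T, ee (t * x)‖ * ‖ee x - 1‖ ≤ 2 := by
    rw [← norm_mul, h2]
    refine (norm_sub_le _ _).trans ?_
    rw [norm_ee, norm_one]
    norm_num
  have h7 := norm_nonneg (∑ t ∈ range T, ee (t * x))
  nlinarith [nn_nonneg x]

end Pool.Agent.Lib.H18V
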